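import Pool.Agent.H3.RCR.Stmts

/-!
# Project RCR, module A1: contraction basics
-/

namespace Pool.Agent.H3.RCR

namespace MA1

theorem sub1_u (u v : ℕ) : sub1 u v u = v := by simp [sub1]

theorem sub1_ne {u v x : ℕ} (h : x ≠ u) : sub1 u v x = x := by simp [sub1, h]

theorem sub1_v (u v : ℕ) : sub1 u v v = v := by
  unfold sub1; split <;> rfl

theorem sub1_ne_u {u v : ℕ} (huv : u ≠ v) (x : ℕ) : sub1 u v x ≠ u := by
  unfold sub1
  split
  · exact fun h => huv h.symm
  · assumption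

theorem sub1_eq_v {u v x : ℕ} (h : sub1 u v x = v) : x = u ∨ x = v := by
  unfold sub1 at h
  split at h
  · left; assumption
  · right; exact h

theorem sub1_inj {u v x y : ℕ} (h : sub1 u v x = sub1 u v y) (hv : sub1 u v x ≠ v) : x = y := by
  have h1 : x ≠ u := fun e => hv (by rw [e, sub1_u])
  have h2 : y ≠ u := fun e => hv (by rw [h, e, sub1_u])
  rwa [sub1_ne h1, sub1_ne h2] at h

theorem sub1_eq_of_ne {u v x y : ℕ} (h : sub1 u v x = y) (hv : y ≠ v) : x = y := by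
  by_cases h1 : x = u
  · rw [h1, sub1_u] at h; exact absurd h.symm hv
  · rwa [sub1_ne h1] at h

theorem mem_contr {F : Finset Tri} {u v a b c : ℕ} : (a, b, c) ∈ contr F u v ↔
    (a ≠ b ∧ b ≠ c ∧ c ≠ a) ∧ ∃ a' b' c', (a', b', c') ∈ F ∧ sub1 u v a' = a ∧ sub1 u v b' = b ∧
      sub1 u v c' = c := by
  unfold contr
  rw [mem_quo]
  constructor
  · rintro ⟨h, ⟨a', b', c'⟩, ht, he⟩
    simp only [mapT, Prod.mk.injEq] at he
    exact ⟨h, a', b', c', ht, he.1, he.2.1, he.2.2⟩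
  · rintro ⟨h, a', b', c', ht, h1, h2, h3⟩
    refine ⟨h, (a', b', c'), ht, ?_⟩
    simp only [mapT, h1, h2, h3]

variable {F : Finset Tri} {u v : ℕ}

theorem ok_ne (hF : Pre F) (h : Ok F u v) : u ≠ v := hF.adj_ne h.adj

/-- a face that does not contain both `u` and `v` survives -/
theorem mem_of {a b c : ℕ} (h : (a, b, c) ∈ F)
    (hab : sub1 u v a ≠ sub1 u v b) (hbc : sub1 u v b ≠ sub1 u v c)
    (hca : sub1 u v c ≠ sub1 u v a) : (sub1 u v a, sub1 u v b, sub1 u v c) ∈ contr F u v :=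
  mem_contr.2 ⟨⟨hab, hbc, hca⟩, a, b, c, h, rfl, rfl, rfl⟩

theorem nd_of_notu (hF : Pre F) {a b c : ℕ} (h : (a, b, c) ∈ F) (ha : a ≠ u) (hb : b ≠ u)
    (hc : c ≠ u) : (a, b, c) ∈ contr F u v := by
  obtain ⟨h1, h2, h3⟩ := hF.nd h
  exact mem_contr.2 ⟨⟨h1, h2, h3⟩, a, b, c, h, sub1_ne ha, sub1_ne hb, sub1_ne hc⟩

theorem nd_of_u (hF : Pre F) {b c : ℕ} (h : (u, b, c) ∈ F) (hb : b ≠ v)
    (hc : c ≠ v) : (v, b, c) ∈ contr F u v := by
  obtain ⟨h1, h2, h3⟩ := hF.nd h
  exact mem_contr.2 ⟨⟨hb.symm, h2, hc⟩, u, b, c, h, sub1_u _ _, sub1_ne h1.symm, sub1_ne h3⟩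

theorem rot_contr (hF : Pre F) : RotC (contr F u v) := by
  intro a b c h
  obtain ⟨⟨h1, h2, h3⟩, a', b', c', ht, e1, e2, e3⟩ := mem_contr.1 h
  exact mem_contr.2 ⟨⟨h2, h3, h1⟩, b', c', a', hF.rot _ _ _ ht, e2, e3, e1⟩

/-- adjacency in the contraction -/
theorem adj_contr (hF : Pre F) (hO : Ok F u v) (a b : ℕ) : Adj (contr F u v) a b ↔
    a ≠ b ∧ ∃ a' b', Adj F a' b' ∧ sub1 u v a' = a ∧ sub1 u v b' = b := by
  have huv := ok_ne hF hO
  constructor
  · rintro ⟨c, hc⟩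
    obtain ⟨⟨h1, _, _⟩, a', b', c', ht, e1, e2, _⟩ := mem_contr.1 hc
    exact ⟨h1, a', b', ⟨c', ht⟩, e1, e2⟩
  · rintro ⟨hab, a', b', ⟨c, hc⟩, rfl, rfl⟩
    obtain ⟨h1, h2, h3⟩ := hF.nd hc
    -- dist: no vertex is an apex on both sides
    have hd := hO.dist
    by_cases ha : a' = u
    · subst ha
      by_cases hcv : c = v
      · subst hcv
        -- (u, b', v)
        have hb' : (c, a', b') ∈ F := hF.rot2 hc
        obtain ⟨d, hdF⟩ := hF.opp _ _ _ (hF.rot _ _ _ hc)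
        have hdu : d ≠ a' := by
          rintro rfl
          exact hd b' ⟨hF.rot2 hdF, hb'⟩
        refine ⟨d, ?_⟩
        rw [sub1_u, sub1_ne h1.symm]
        exact nd_of_notu hF hdF huv.symm h1.symm hdu
      · refine ⟨c, ?_⟩
        rw [sub1_u, sub1_ne h1.symm]
        refine nd_of_u hF hc ?_ hcv
        rintro rfl
        exact hab (by rw [sub1_u, sub1_v])
    by_cases hb : b' = u
    · subst hb
      by_cases hcv : c = v
      · subst hcv
        -- (a', u, v)
        have h' : (b', c, a') ∈ F := hF.rot _ _ _ hc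
        obtain ⟨d, hdF⟩ := hF.opp _ _ _ (hF.rot _ _ _ h')
        have hdu : d ≠ b' := by
          rintro rfl
          exact hd a' ⟨h', hF.rot _ _ _ hdF⟩
        refine ⟨d, ?_⟩
        rw [sub1_u, sub1_ne ha]
        exact nd_of_notu hF hdF ha huv.symm hdu
      · refine ⟨c, ?_⟩
        rw [sub1_u, sub1_ne ha]
        have h' := nd_of_u (v := v) hF (hF.rot _ _ _ hc) hcv (by
          rintro rfl
          exact hab (by rw [sub1_u, sub1_v]))
        exact rot_contr hF _ _ _ (rot_contr hF _ _ _ h')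
    rw [sub1_ne ha, sub1_ne hb]
    by_cases hcu : c = u
    · subst hcu
      by_cases hav : a' = v
      · subst hav
        -- (v, b', u)
        have h' : (c, a', b') ∈ F := hF.rot2 hc
        obtain ⟨d, hdF⟩ := hF.opp _ _ _ (hF.rot _ _ _ hc)
        have hdv : d ≠ a' := by
          rintro rfl
          exact hd b' ⟨h', hF.rot2 hdF⟩
        exact ⟨d, nd_of_u hF hdF h1.symm hdv⟩
      by_cases hbv : b' = v
      · subst hbv
        -- (a', v, u)
        have h' : (b', c, a') ∈ F := hF.rot _ _ _ hc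
        obtain ⟨d, hdF⟩ := hF.opp _ _ _ (hF.rot _ _ _ h')
        have hdv : d ≠ b' := by
          rintro rfl
          exact hd a' ⟨hF.rot _ _ _ hdF, h'⟩
        have h'' := nd_of_u (v := b') hF (hF.rot _ _ _ hdF) hdv hav
        exact ⟨d, rot_contr hF _ _ _ (rot_contr hF _ _ _ h'')⟩
      · have h'' := nd_of_u (v := v) hF (hF.rot2 hc) hav hbv
        exact ⟨v, rot_contr hF _ _ _ h''⟩
    · exact ⟨c, nd_of_notu hF hc ha hb hcu⟩

theorem uniq_contr (hF : Pre F) (hO : Ok F u v) (a b c d : ℕ) (h : (a, b, c) ∈ contr F u v)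
    (h' : (a, b, d) ∈ contr F u v) : c = d := by
  obtain ⟨⟨h1, h2, h3⟩, a1, b1, c1, ht, e1, e2, e3⟩ := mem_contr.1 h
  obtain ⟨⟨_, h2', h3'⟩, a2, b2, d2, ht', e1', e2', e3'⟩ := mem_contr.1 h'
  by_cases hav : a = v
  · have hbv : b ≠ v := fun e => h1 (hav.trans e.symm)
    have hcv : c ≠ v := fun e => h3 (e.trans hav.symm)
    have hdv : d ≠ v := fun e => h3' (e.trans hav.symm)
    have hb1 : b1 = b := sub1_eq_of_ne e2 hbv
    have hb2 : b2 = b := sub1_eq_of_ne e2' hbv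
    have hc1 : c1 = c := sub1_eq_of_ne e3 hcv
    have hd2 : d2 = d := sub1_eq_of_ne e3' hdv
    subst hb1 hc1 hd2
    rw [hb2] at ht'
    have ha1 := sub1_eq_v (e1.trans hav)
    have ha2 := sub1_eq_v (e1'.trans hav)
    have key : ∀ c d, (u, b1, c) ∈ F → (v, b1, d) ∈ F → c ≠ v → d ≠ u → False := by
      intro c d hc hd hcv hdu
      rcases hO.apex b1 ⟨c, hc⟩ ⟨d, hd⟩ with h4 | h4
      · exact hdu (hF.uniq _ _ _ _ hd (hF.rot _ _ _ h4))
      · exact hcv (hF.uniq _ _ _ _ hc (hF.rot _ _ _ h4))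
    have hcu : c1 ≠ u := by
      rintro rfl; rw [sub1_u] at e3; exact hcv e3.symm
    have hdu : d2 ≠ u := by
      rintro rfl; rw [sub1_u] at e3'; exact hdv e3'.symm
    rcases ha1 with rfl | rfl <;> rcases ha2 with ha2 | ha2
    · subst ha2; exact hF.uniq _ _ _ _ ht ht'
    · subst ha2; exact (key _ _ ht ht' hcv hdu).elim
    · subst ha2; exact (key _ _ ht' ht hdv hcu).elim
    · subst ha2; exact hF.uniq _ _ _ _ ht ht'
  · have ha1 : a1 = a := sub1_eq_of_ne e1 hav
    have ha2 : a2 = a := sub1_eq_of_ne e1' hav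
    subst ha1
    rw [ha2] at ht'
    by_cases hbv : b = v
    · have hcv : c ≠ v := fun e => h2 (hbv.trans e.symm)
      have hdv : d ≠ v := fun e => h2' (hbv.trans e.symm)
      have hc1 : c1 = c := sub1_eq_of_ne e3 hcv
      have hd2 : d2 = d := sub1_eq_of_ne e3' hdv
      subst hc1 hd2
      have hb1 := sub1_eq_v (e2.trans hbv)
      have hb2 := sub1_eq_v (e2'.trans hbv)
      have key : ∀ c d, (a1, u, c) ∈ F → (a1, v, d) ∈ F → c ≠ v → d ≠ u → False := by
        intro c d hc hd hcv hdu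
        rcases hO.apex a1 (hF.adj_symm ⟨c, hc⟩) (hF.adj_symm ⟨d, hd⟩) with h4 | h4
        · exact hcv (hF.uniq _ _ _ _ hc (hF.rot2 h4))
        · exact hdu (hF.uniq _ _ _ _ hd (hF.rot2 h4))
      have hcu : c1 ≠ u := by
        rintro rfl; rw [sub1_u] at e3; exact hcv e3.symm
      have hdu : d2 ≠ u := by
        rintro rfl; rw [sub1_u] at e3'; exact hdv e3'.symm
      rcases hb1 with rfl | rfl <;> rcases hb2 with hb2 | hb2
      · subst hb2; exact hF.uniq _ _ _ _ ht ht'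
      · subst hb2; exact (key _ _ ht ht' hcv hdu).elim
      · subst hb2; exact (key _ _ ht' ht hdv hcu).elim
      · subst hb2; exact hF.uniq _ _ _ _ ht ht'
    · have hb1 : b1 = b := sub1_eq_of_ne e2 hbv
      have hb2 : b2 = b := sub1_eq_of_ne e2' hbv
      subst hb1
      rw [hb2] at ht'
      have := hF.uniq _ _ _ _ ht ht'
      subst this
      exact e3.symm.trans e3'

theorem pre_contr (hF : Pre F) (hO : Ok F u v) : Pre (contr F u v) where
  rot := rot_contr hF
  ne := fun a b c h => (mem_contr.1 h).1.1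
  uniq := uniq_contr hF hO
  opp := by
    intro a b c h
    obtain ⟨h1, a', b', hA, e1, e2⟩ := (adj_contr hF hO a b).1 ⟨c, h⟩
    exact (adj_contr hF hO b a).2 ⟨h1.symm, b', a', hF.adj_symm hA, e2, e1⟩

theorem verts_contr (hF : Pre F) (hO : Ok F u v) : verts (contr F u v) = (verts F).erase u := by
  have huv := ok_ne hF hO
  ext w
  rw [Finset.mem_erase, mem_verts', mem_verts']
  constructor
  · rintro ⟨b, hb⟩
    obtain ⟨h1, a', b', hA, e1, e2⟩ := (adj_contr hF hO w b).1 hb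
    refine ⟨?_, ?_⟩
    · rw [← e1]; exact sub1_ne_u huv a'
    · by_cases ha : a' = u
      · rw [ha, sub1_u] at e1
        rw [← e1]
        exact ⟨u, hF.adj_symm hO.adj⟩
      · rw [sub1_ne ha] at e1
        rw [← e1]
        exact ⟨b', hA⟩
  · rintro ⟨hwu, b', hA⟩
    by_cases hwv : w = v
    · subst hwv
      obtain ⟨x, hx⟩ := hO.adj
      obtain ⟨h1, h2, h3⟩ := hF.nd hx
      exact ⟨x, (adj_contr hF hO w x).2 ⟨h2, w, x, ⟨u, hF.rot _ _ _ hx⟩, sub1_v _ _, sub1_ne h3⟩⟩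
    · refine ⟨sub1 u v b', (adj_contr hF hO _ _).2 ⟨?_, w, b', hA, sub1_ne hwu, rfl⟩⟩
      intro e
      have h1 := sub1_eq_of_ne e.symm hwv
      exact hF.adj_ne hA h1.symm

theorem filter_eq (hF : Pre F) (hO : Ok F u v) {x y : ℕ} (hx : (u, v, x) ∈ F)
    (hy : (v, u, y) ∈ F) : F.filter (fun t => ¬ Nd (mapT (sub1 u v) t)) =
      rots (u, v, x) ∪ rots (v, u, y) := by
  have huv := ok_ne hF hO
  obtain ⟨hx1, hx2, hx3⟩ := hF.nd hx
  obtain ⟨hy1, hy2, hy3⟩ := hF.nd hy
  ext ⟨a, b, c⟩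
  simp only [Finset.mem_filter, Finset.mem_union, mem_rots, Prod.mk.injEq]
  constructor
  · rintro ⟨h, hn⟩
    obtain ⟨h1, h2, h3⟩ := hF.nd h
    have h4 : (a = u ∨ b = u ∨ c = u) ∧ (a = v ∨ b = v ∨ c = v) := by
      by_contra hcon
      apply hn
      rw [not_and_or] at hcon
      rcases hcon with hcon | hcon
      · push Not at hcon
        obtain ⟨g1, g2, g3⟩ := hcon
        simp only [Nd, mapT]
        rw [sub1_ne g1, sub1_ne g2, sub1_ne g3]
        exact ⟨h1, h2, h3⟩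
      · push Not at hcon
        obtain ⟨g1, g2, g3⟩ := hcon
        simp only [Nd, mapT]
        have hg : ∀ p q : ℕ, p ≠ q → p ≠ v → q ≠ v → sub1 u v p ≠ sub1 u v q := by
          intro p q hpq hp hq e
          unfold sub1 at e
          split_ifs at e with k1 k2 k2
          · exact hpq (k1.trans k2.symm)
          · exact hq e.symm
          · exact hp e
          · exact hpq e
        exact ⟨hg _ _ h1 g1 g2, hg _ _ h2 g2 g3, hg _ _ h3 g3 g1⟩
    rcases h4 with ⟨rfl | rfl | rfl, h5⟩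
    · rcases h5 with h5 | rfl | rfl
      · exact absurd h5 huv
      · have := hF.uniq _ _ _ _ h hx
        subst this; simp
      · have := hF.uniq _ _ _ _ (hF.rot2 h) hy
        subst this; simp
    · rcases h5 with rfl | h5 | rfl
      · have := hF.uniq _ _ _ _ h hy
        subst this; simp
      · exact absurd h5 huv
      · have := hF.uniq _ _ _ _ (hF.rot _ _ _ h) hx
        subst this; simp
    · rcases h5 with rfl | rfl | h5
      · have := hF.uniq _ _ _ _ (hF.rot2 h) hx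
        subst this; simp
      · have := hF.uniq _ _ _ _ (hF.rot _ _ _ h) hy
        subst this; simp
      · exact absurd h5 huv
  · have e1 := sub1_u u v
    have e2 := sub1_v u v
    rintro ((⟨rfl, rfl, rfl⟩ | ⟨rfl, rfl, rfl⟩ | ⟨rfl, rfl, rfl⟩) |
      (⟨rfl, rfl, rfl⟩ | ⟨rfl, rfl, rfl⟩ | ⟨rfl, rfl, rfl⟩))
    · exact ⟨hx, by simp [Nd, mapT, e1, e2]⟩
    · exact ⟨hF.rot _ _ _ hx, by simp [Nd, mapT, e1, e2]⟩
    · exact ⟨hF.rot2 hx, by simp [Nd, mapT, e1, e2]⟩
    · exact ⟨hy, by simp [Nd, mapT, e1, e2]⟩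
    · exact ⟨hF.rot _ _ _ hy, by simp [Nd, mapT, e1, e2]⟩
    · exact ⟨hF.rot2 hy, by simp [Nd, mapT, e1, e2]⟩

theorem card_six {x y : ℕ} (huv : u ≠ v) (hx1 : x ≠ u) (hx2 : x ≠ v) (hy1 : y ≠ u) (hy2 : y ≠ v) :
    (rots (u, v, x) ∪ rots (v, u, y)).card = 6 := by
  have h : rots (u, v, x) ∪ rots (v, u, y) =
      {(u, v, x), (v, x, u), (x, u, v), (v, u, y), (u, y, v), (y, v, u)} := by
    ext t
    simp only [rots, Finset.mem_union, Finset.mem_insert, Finset.mem_singleton]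
    tauto
  rw [h]
  rw [Finset.card_insert_of_notMem, Finset.card_insert_of_notMem, Finset.card_insert_of_notMem,
    Finset.card_insert_of_notMem, Finset.card_insert_of_notMem, Finset.card_singleton]
  all_goals
    simp only [Finset.mem_insert, Finset.mem_singleton, Prod.mk.injEq, not_or, not_and]
  all_goals
    omega

theorem inj_contr (hF : Pre F) {t t' : Tri} (ht : t ∈ F) (ht' : t' ∈ F)
    (hn : Nd (mapT (sub1 u v) t)) (he : mapT (sub1 u v) t = mapT (sub1 u v) t') : t = t' := by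
  obtain ⟨a, b, c⟩ := t
  obtain ⟨a', b', c'⟩ := t'
  simp only [mapT, Prod.mk.injEq] at he
  obtain ⟨e1, e2, e3⟩ := he
  simp only [Nd, mapT] at hn
  obtain ⟨n1, n2, n3⟩ := hn
  by_cases ha : sub1 u v a = v
  · have hb : b = b' := sub1_inj e2 (fun h => n1 (ha.trans h.symm))
    have hc : c = c' := sub1_inj e3 (fun h => n3 (h.trans ha.symm))
    subst hb hc
    rw [hF.uniq' ht ht']
  · have haa : a = a' := sub1_inj e1 ha
    subst haa
    by_cases hb : sub1 u v b = v
    · have hc : c = c' := sub1_inj e3 (fun h => n2 (hb.trans h.symm))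
      subst hc
      have := hF.uniq _ _ _ _ (hF.rot2 ht) (hF.rot2 ht')
      rw [this]
    · have hbb : b = b' := sub1_inj e2 hb
      subst hbb
      rw [hF.uniq _ _ _ _ ht ht']

theorem card_contr (hF : Pre F) (hO : Ok F u v) : (contr F u v).card + 6 = F.card := by
  have huv := ok_ne hF hO
  obtain ⟨x, hx⟩ := hO.adj
  obtain ⟨y, hy⟩ := hF.adj_symm hO.adj
  obtain ⟨hx1, hx2, hx3⟩ := hF.nd hx
  obtain ⟨hy1, hy2, hy3⟩ := hF.nd hy
  have h1 : contr F u v = (F.filter (fun t => Nd (mapT (sub1 u v) t))).image (mapT (sub1 u v)) := by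
    ext s
    unfold contr
    rw [mem_quo, Finset.mem_image]
    constructor
    · rintro ⟨hs, t, ht, rfl⟩
      exact ⟨t, Finset.mem_filter.2 ⟨ht, hs⟩, rfl⟩
    · rintro ⟨t, ht, rfl⟩
      rw [Finset.mem_filter] at ht
      exact ⟨ht.2, t, ht.1, rfl⟩
  have h2 : (contr F u v).card = (F.filter (fun t => Nd (mapT (sub1 u v) t))).card := by
    rw [h1]
    apply Finset.card_image_of_injOn
    intro t ht t' ht' he
    rw [Finset.mem_coe, Finset.mem_filter] at ht ht'
    exact inj_contr hF ht.1 ht'.1 ht.2 he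
  have h3 : (F.filter (fun t => ¬ Nd (mapT (sub1 u v) t))).card = 6 := by
    rw [filter_eq hF hO hx hy]
    exact card_six huv hx3 hx2.symm hy2.symm hy3
  have h4 := Finset.card_filter_add_card_filter_not (s := F) (fun t => Nd (mapT (sub1 u v) t))
  omega

end MA1

open MA1 in
/-- **A1**: contraction basics -/
theorem a1 : A1Stmt := by
  intro F u v hF hO
  have huv := ok_ne hF hO
  refine ⟨pre_contr hF hO, verts_contr hF hO, card_contr hF hO, adj_contr hF hO, ?_, ?_, ?_, ?_⟩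
  · rintro ⟨a, b, c⟩ hv hu
    simp only [isV, not_or] at hv hu
    constructor
    · intro h
      obtain ⟨_, a', b', c', ht, e1, e2, e3⟩ := mem_contr.1 h
      rw [sub1_eq_of_ne e1 (Ne.symm hv.1), sub1_eq_of_ne e2 (Ne.symm hv.2.1),
        sub1_eq_of_ne e3 (Ne.symm hv.2.2)] at ht
      exact ht
    · intro h
      exact nd_of_notu hF h (Ne.symm hu.1) (Ne.symm hu.2.1) (Ne.symm hu.2.2)
  · rintro ⟨a, b, c⟩ h hu
    simp only [isV, not_or] at hu
    exact nd_of_notu hF h (Ne.symm hu.1) (Ne.symm hu.2.1) (Ne.symm hu.2.2)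
  · intro a b h ha hb
    exact nd_of_u hF h ha hb
  · intro a b h
    obtain ⟨⟨h1, h2, h3⟩, a', b', c', ht, e1, e2, e3⟩ := mem_contr.1 h
    rw [sub1_eq_of_ne e2 h1.symm, sub1_eq_of_ne e3 h3] at ht
    rcases sub1_eq_v e1 with rfl | rfl
    · right; exact ht
    · left; exact ht

end Pool.Agent.H3.RCR
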