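import Pool.Agent.H67.RCR.A1

/-!
# Project RCR, module A2: spheres are closed under contraction
-/

namespace Pool.Agent.H3.RCR

namespace MA2

open MA1 Relation

variable {F : Finset Tri} {u v : ℕ}

theorem euler_contr (hF : Pre F) (hO : Ok F u v) (he : F.card + 12 = 6 * (verts F).card) :
    (contr F u v).card + 12 = 6 * (verts (contr F u v)).card := by
  have h1 := card_contr hF hO
  have h2 : (verts (contr F u v)).card + 1 = (verts F).card := by
    rw [verts_contr hF hO]
    exact Finset.card_erase_add_one (Pre.mem_left hO.adj)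
  omega

theorem adj_map (hF : Pre F) (hO : Ok F u v) {p q : ℕ} (h : Adj F p q) :
    sub1 u v p = sub1 u v q ∨ Adj (contr F u v) (sub1 u v p) (sub1 u v q) := by
  by_cases e : sub1 u v p = sub1 u v q
  · exact Or.inl e
  · exact Or.inr ((adj_contr hF hO _ _).2 ⟨e, p, q, h, rfl, rfl⟩)

theorem conn_contr (hF : Sph F) (hO : Ok F u v) (a b : ℕ) (ha : a ∈ verts (contr F u v))
    (hb : b ∈ verts (contr F u v)) : ReflTransGen (Adj (contr F u v)) a b := by
  rw [verts_contr hF.toPre hO, Finset.mem_erase] at ha hb
  have h := hF.conn a b ha.2 hb.2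
  have key : ∀ c, ReflTransGen (Adj F) a c →
      ReflTransGen (Adj (contr F u v)) (sub1 u v a) (sub1 u v c) := by
    intro c hc
    induction hc with
    | refl => exact ReflTransGen.refl
    | tail _ h2 ih =>
      rcases adj_map hF.toPre hO h2 with e | e
      · rw [← e]; exact ih
      · exact ih.tail e
  have := key b h
  rwa [sub1_ne ha.1, sub1_ne hb.1] at this

theorem link_other (hF : Sph F) (hO : Ok F u v) {w : ℕ} (hw : w ≠ v) (y z : ℕ)
    (hy : Adj (contr F u v) w y) (hz : Adj (contr F u v) w z) :
    ReflTransGen (fun p q => (w, p, q) ∈ contr F u v) y z := by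
  have hP := hF.toPre
  obtain ⟨hwy, a1, y', hA, e1, rfl⟩ := (adj_contr hP hO _ _).1 hy
  obtain ⟨hwz, a2, z', hA', e2, rfl⟩ := (adj_contr hP hO _ _).1 hz
  have h1 : a1 = w := sub1_eq_of_ne e1 hw
  have h2 : a2 = w := sub1_eq_of_ne e2 hw
  subst h1
  rw [h2] at hA'
  have hwu : a1 ≠ u := by
    rintro rfl
    rw [sub1_u] at e1
    exact hw e1.symm
  have h := hF.link a1 y' z' hA hA'
  have key : ∀ c, ReflTransGen (fun p q => (a1, p, q) ∈ F) y' c →
      ReflTransGen (fun p q => (a1, p, q) ∈ contr F u v) (sub1 u v y') (sub1 u v c) := by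
    intro c hc
    induction hc with
    | refl => exact ReflTransGen.refl
    | @tail p q _ h2 ih =>
      by_cases e : sub1 u v p = sub1 u v q
      · rw [← e]; exact ih
      · refine ih.tail ?_
        obtain ⟨n1, n2, n3⟩ := hP.nd h2
        refine mem_contr.2 ⟨⟨?_, e, ?_⟩, a1, p, q, h2, e1, rfl, rfl⟩
        · intro e'
          exact n1 (sub1_eq_of_ne e'.symm hw).symm
        · intro e'
          exact n3 (sub1_eq_of_ne e' hw)
  exact key z' h

theorem link_v (hF : Sph F) (hO : Ok F u v) (y z : ℕ)
    (hy : Adj (contr F u v) v y) (hz : Adj (contr F u v) v z) :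
    ReflTransGen (fun p q => (v, p, q) ∈ contr F u v) y z := by
  have hP := hF.toPre
  have huv := ok_ne hP hO
  obtain ⟨x, hx⟩ := hO.adj
  obtain ⟨y0, hy0⟩ := hP.adj_symm hO.adj
  obtain ⟨hx1, hx2, hx3⟩ := hP.nd hx
  obtain ⟨hy1, hy2, hy3⟩ := hP.nd hy0
  -- the link of `v`
  have v1 : ∀ q, ReflTransGen (fun p q => (v, p, q) ∈ F) u q →
      q = u ∨ ReflTransGen (fun p q => (v, p, q) ∈ contr F u v) y0 q := by
    intro q hq
    induction hq with
    | refl => exact Or.inl rfl
    | @tail p q _ h2 ih =>
      rcases ih with rfl | ih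
      · right
        rw [hP.uniq _ _ _ _ h2 hy0]
      · by_cases hq : q = u
        · exact Or.inl hq
        · right
          by_cases hp : p = u
          · subst hp
            rw [hP.uniq _ _ _ _ h2 hy0]
          · exact ih.tail (nd_of_notu hP h2 huv.symm hp hq)
  have v2 : ∀ p, ReflTransGen (fun p q => (v, p, q) ∈ F) p u →
      p = u ∨ ReflTransGen (fun p q => (v, p, q) ∈ contr F u v) p x := by
    intro p hp
    induction hp using ReflTransGen.head_induction_on with
    | refl => exact Or.inl rfl
    | @head p q h2 _ ih =>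
      by_cases hp : p = u
      · exact Or.inl hp
      · right
        rcases ih with rfl | ih
        · have h3 := hP.uniq _ _ _ _ (hP.rot2 h2) hx
          rw [h3]
        · by_cases hq : q = u
          · subst hq
            rw [hP.uniq _ _ _ _ (hP.rot2 h2) hx]
          · exact ReflTransGen.head (nd_of_notu hP h2 huv.symm hp hq) ih
  -- the link of `u`
  have u1 : ∀ q, ReflTransGen (fun p q => (u, p, q) ∈ F) v q →
      q = v ∨ ReflTransGen (fun p q => (v, p, q) ∈ contr F u v) x q := by
    intro q hq
    induction hq with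
    | refl => exact Or.inl rfl
    | @tail p q _ h2 ih =>
      by_cases hq : q = v
      · exact Or.inl hq
      · right
        by_cases hp : p = v
        · subst hp
          rw [hP.uniq _ _ _ _ h2 hx]
        · rcases ih with ih | ih
          · exact absurd ih hp
          · exact ih.tail (nd_of_u hP h2 hp hq)
  have u2 : ∀ p, ReflTransGen (fun p q => (u, p, q) ∈ F) p v →
      p = v ∨ ReflTransGen (fun p q => (v, p, q) ∈ contr F u v) p y0 := by
    intro p hp
    induction hp using ReflTransGen.head_induction_on with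
    | refl => exact Or.inl rfl
    | @head p q h2 _ ih =>
      by_cases hp : p = v
      · exact Or.inl hp
      · right
        by_cases hq : q = v
        · subst hq
          rw [hP.uniq _ _ _ _ (hP.rot2 h2) hy0]
        · rcases ih with ih | ih
          · exact absurd ih hq
          · exact ReflTransGen.head (nd_of_u hP h2 hp hq) ih
  have hvu : Adj F v u := hP.adj_symm hO.adj
  -- neighbours
  have nb : ∀ t, Adj (contr F u v) v t → (Adj F u t ∨ Adj F v t) ∧ t ≠ u ∧ t ≠ v := by
    intro t ht
    obtain ⟨h1, a', b', hA, e1, e2⟩ := (adj_contr hP hO _ _).1 ht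
    have e3 : b' = t := sub1_eq_of_ne e2 h1.symm
    subst e3
    have e4 : b' ≠ u := by
      rintro rfl
      rw [sub1_u] at e2
      exact h1 e2
    rcases sub1_eq_v e1 with rfl | rfl
    · exact ⟨Or.inl hA, e4, h1.symm⟩
    · exact ⟨Or.inr hA, e4, h1.symm⟩
  have x_y0 : ReflTransGen (fun p q => (v, p, q) ∈ contr F u v) x y0 := by
    rcases u1 y0 (hF.link u v y0 hO.adj ⟨v, hP.rot _ _ _ hy0⟩) with h | h
    · exact absurd h hy3
    · exact h
  have y0_x : ReflTransGen (fun p q => (v, p, q) ∈ contr F u v) y0 x := by
    rcases v1 x (hF.link v u x hvu ⟨u, hP.rot _ _ _ hx⟩) with h | h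
    · exact absurd h hx3
    · exact h
  have to_x : ReflTransGen (fun p q => (v, p, q) ∈ contr F u v) y x := by
    obtain ⟨h1, h2, h3⟩ := nb y hy
    rcases h1 with h1 | h1
    · rcases u2 y (hF.link u y v h1 hO.adj) with h | h
      · exact absurd h h3
      · exact h.trans y0_x
    · rcases v2 y (hF.link v y u h1 hvu) with h | h
      · exact absurd h h2
      · exact h
  have of_x : ReflTransGen (fun p q => (v, p, q) ∈ contr F u v) x z := by
    obtain ⟨h1, h2, h3⟩ := nb z hz
    rcases h1 with h1 | h1
    · rcases u1 z (hF.link u v z hO.adj h1) with h | h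
      · exact absurd h h3
      · exact h
    · rcases v1 z (hF.link v u z hvu h1) with h | h
      · exact absurd h h2
      · exact x_y0.trans h
  exact to_x.trans of_x

end MA2

open MA1 MA2 in
/-- **A2**: spheres are closed under contraction -/
theorem a2 : A2Stmt := by
  intro F u v hF hO
  have hP := hF.toPre
  exact
    { toPre := pre_contr hP hO
      link := by
        intro w y z hy hz
        by_cases hw : w = v
        · subst hw
          exact link_v hF hO y z hy hz
        · exact link_other hF hO hw y z hy hz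
      conn := fun a b ha hb => conn_contr hF hO a b ha hb
      euler := euler_contr hP hO hF.euler }

end Pool.Agent.H3.RCR
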