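import Pool.Agent.H67.RCR.A1

/-!
# Project RCR, module A3: spheres and un-contraction
-/

namespace Pool.Agent.H3.RCR

namespace MA3

open MA1 Relation

variable {F : Finset Tri} {u v : ℕ}

/-- the neighbours of `w` -/
def Nb (F : Finset Tri) (w : ℕ) : Type := {p : ℕ // Adj F w p}

theorem nb_finite (F : Finset Tri) (w : ℕ) : Finite (Nb F w) := by
  have h : Set.Finite {p : ℕ | Adj F w p} := by
    refine Set.Finite.subset (F.image (fun t => t.2.1)).finite_toSet ?_
    rintro p ⟨c, hc⟩
    simp only [Finset.coe_image, Set.mem_image, Finset.mem_coe]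
    exact ⟨_, hc, rfl⟩
  exact h.to_subtype

/-- the successor in the link of `w` -/
noncomputable def succ (hF : Pre F) (w : ℕ) : Equiv.Perm (Nb F w) where
  toFun p := ⟨p.2.choose, hF.adj_symm ⟨p.1, hF.rot2 p.2.choose_spec⟩⟩
  invFun q := ⟨(hF.pred q.2).choose, ⟨q.1, (hF.pred q.2).choose_spec⟩⟩
  left_inv p := by
    apply Subtype.ext
    have h1 := p.2.choose_spec
    have h2 := (hF.pred (v := w) (q := p.2.choose)
      (hF.adj_symm ⟨p.1, hF.rot2 p.2.choose_spec⟩)).choose_spec
    exact hF.uniq _ _ _ _ (hF.rot2 h2) (hF.rot2 h1)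
  right_inv q := by
    apply Subtype.ext
    have h1 := (hF.pred q.2).choose_spec
    have h2 : ∃ c, (w, (hF.pred q.2).choose, c) ∈ F := ⟨q.1, h1⟩
    exact hF.uniq _ _ _ _ h2.choose_spec h1

theorem succ_spec (hF : Pre F) (w : ℕ) (p : Nb F w) : (w, p.1, (succ hF w p).1) ∈ F :=
  p.2.choose_spec

theorem link_symm (hF : Pre F) {w p q : ℕ} (hp : Adj F w p)
    (h : ReflTransGen (fun p q => (w, p, q) ∈ F) p q) :
    Adj F w q ∧ ReflTransGen (fun p q => (w, p, q) ∈ F) q p := by
  have fin := nb_finite F w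
  -- forward: same cycle
  have h1 : ∃ hq : Adj F w q, Equiv.Perm.SameCycle (succ hF w) ⟨p, hp⟩ ⟨q, hq⟩ := by
    induction h with
    | refl => exact ⟨hp, Equiv.Perm.SameCycle.refl _ _⟩
    | @tail r s _ h2 ih =>
      obtain ⟨hr, hc⟩ := ih
      have hs : Adj F w s := hF.adj_symm ⟨r, hF.rot2 h2⟩
      refine ⟨hs, hc.trans ⟨1, ?_⟩⟩
      rw [zpow_one]
      apply Subtype.ext
      exact hF.uniq _ _ _ _ (succ_spec hF w ⟨r, hr⟩) h2
  obtain ⟨hq, hc⟩ := h1
  refine ⟨hq, ?_⟩
  obtain ⟨n, -, hn⟩ := hc.symm.exists_pow_eq'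
  have key : ∀ (n : ℕ) (a : Nb F w),
      ReflTransGen (fun p q => (w, p, q) ∈ F) a.1 (((succ hF w) ^ n) a).1 := by
    intro n
    induction n with
    | zero => intro a; exact ReflTransGen.refl
    | succ n ih =>
      intro a
      refine (ih a).tail ?_
      rw [pow_succ']
      exact succ_spec hF w _
  have := key n ⟨q, hq⟩
  rw [hn] at this
  exact this

theorem conn_of (hF : Pre F) (hO : Ok F u v) (hG : Sph (contr F u v)) (a b : ℕ)
    (ha : a ∈ verts F) (hb : b ∈ verts F) : ReflTransGen (Adj F) a b := by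
  have huv := ok_ne hF hO
  have hvu : Adj F v u := hF.adj_symm hO.adj
  have h0 : ∀ a, ReflTransGen (Adj F) a (sub1 u v a) ∧ ReflTransGen (Adj F) (sub1 u v a) a := by
    intro a
    by_cases h : a = u
    · rw [h, sub1_u]
      exact ⟨ReflTransGen.single hO.adj, ReflTransGen.single hvu⟩
    · rw [sub1_ne h]
      exact ⟨ReflTransGen.refl, ReflTransGen.refl⟩
  have h1 : ∀ a ∈ verts F, sub1 u v a ∈ verts (contr F u v) := by
    intro a ha
    rw [verts_contr hF hO, Finset.mem_erase]
    refine ⟨sub1_ne_u huv a, ?_⟩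
    by_cases h : a = u
    · rw [h, sub1_u]; exact Pre.mem_left hvu
    · rwa [sub1_ne h]
  have h2 := hG.conn _ _ (h1 a ha) (h1 b hb)
  have h3 : ∀ c, ReflTransGen (Adj (contr F u v)) (sub1 u v a) c →
      ReflTransGen (Adj F) (sub1 u v a) c := by
    intro c hc
    induction hc with
    | refl => exact ReflTransGen.refl
    | @tail p q _ h4 ih =>
      obtain ⟨_, a', b', hA, e1, e2⟩ := (adj_contr hF hO _ _).1 h4
      subst e1 e2
      exact ((ih.trans (h0 a').2).tail hA).trans (h0 b').1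
  exact ((h0 a).1.trans (h3 _ h2)).trans (h0 b).2

theorem link_other (hF : Pre F) (hO : Ok F u v) (hG : Sph (contr F u v)) {w : ℕ} (hwu : w ≠ u)
    (hwv : w ≠ v) (y z : ℕ) (hy : Adj F w y) (hz : Adj F w z) :
    ReflTransGen (fun p q => (w, p, q) ∈ F) y z := by
  have huv := ok_ne hF hO
  -- `u` and `v` are reached together
  have both : Adj F w u → Adj F w v →
      ((w, u, v) ∈ F ∨ (w, v, u) ∈ F) := by
    intro h1 h2
    rcases hO.apex w (hF.adj_symm h1) (hF.adj_symm h2) with h | h
    · exact Or.inl (hF.rot2 h)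
    · exact Or.inr (hF.rot2 h)
  have both' : ∀ p q, (p = u ∨ p = v) → (q = u ∨ q = v) → Adj F w p → Adj F w q →
      ReflTransGen (fun p q => (w, p, q) ∈ F) y p → ReflTransGen (fun p q => (w, p, q) ∈ F) y q := by
    intro p q hp hq hwp hwq hyp
    by_cases hpq : p = q
    · rwa [← hpq]
    have h5 : (w, p, q) ∈ F ∨ (w, q, p) ∈ F := by
      rcases hp with rfl | rfl <;> rcases hq with rfl | rfl
      · exact absurd rfl hpq
      · exact both hwp hwq
      · exact (both hwq hwp).symm
      · exact absurd rfl hpq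
    rcases h5 with h5 | h5
    · exact hyp.tail h5
    · exact hyp.trans (link_symm hF hwq (ReflTransGen.single h5)).2
  have hgy : Adj (contr F u v) w (sub1 u v y) := by
    refine (adj_contr hF hO _ _).2 ⟨?_, w, y, hy, sub1_ne hwu, rfl⟩
    intro e
    exact hF.adj_ne hy (sub1_eq_of_ne e.symm hwv).symm
  have hgz : Adj (contr F u v) w (sub1 u v z) := by
    refine (adj_contr hF hO _ _).2 ⟨?_, w, z, hz, sub1_ne hwu, rfl⟩
    intro e
    exact hF.adj_ne hz (sub1_eq_of_ne e.symm hwv).symm
  have h1 := hG.link w _ _ hgy hgz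
  have key : ∀ c, ReflTransGen (fun p q => (w, p, q) ∈ contr F u v) (sub1 u v y) c →
      ∀ p, Adj F w p → sub1 u v p = c → ReflTransGen (fun p q => (w, p, q) ∈ F) y p := by
    intro c hc
    have base : ∀ p, Adj F w p → sub1 u v p = sub1 u v y →
        ReflTransGen (fun p q => (w, p, q) ∈ F) y p := by
      intro p hp he
      by_cases h5 : sub1 u v p = v
      · exact both' y p (sub1_eq_v (he.symm.trans h5)) (sub1_eq_v h5) hy hp ReflTransGen.refl
      · rw [sub1_inj he h5]
    induction hc with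
    | refl => exact base
    | @tail c d _ h2 ih =>
      intro q hq he
      obtain ⟨⟨n1, n2, n3⟩, a', p', q', ht, e1, e2, e3⟩ := mem_contr.1 h2
      have e4 : a' = w := sub1_eq_of_ne e1 hwv
      subst e4
      have h6 := ih p' ⟨q', ht⟩ e2
      have h7 := h6.tail ht
      by_cases h5 : sub1 u v q = v
      · refine both' q' q (sub1_eq_v ?_) (sub1_eq_v h5) (hF.adj_symm ⟨p', hF.rot2 ht⟩) hq h7
        rw [e3, ← he, h5]
      · rw [sub1_inj (he.trans e3.symm) h5]
        exact h7
  exact key _ h1 z hz rfl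

/-- the common argument at `u` and `v` -/
theorem link_aux (hF : Pre F) (hO : Ok F u v) (hG : Sph (contr F u v)) {w w' s : ℕ}
    (hww : Adj F w w') (hs : (w, w', s) ∈ F) (hsv : Adj (contr F u v) v s)
    (hmap : ∀ p q, (w, p, q) ∈ F → p ≠ w' → q ≠ w' → (v, p, q) ∈ contr F u v)
    (y : ℕ) (hy : Adj F w y) : ReflTransGen (fun p q => (w, p, q) ∈ F) w' y := by
  by_contra hcon
  have hne : y ≠ w' := by
    rintro rfl
    exact hcon ReflTransGen.refl
  -- `X` is closed under successor in the link of `v` in the contraction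
  have key : ∀ c, ReflTransGen (fun p q => (v, p, q) ∈ contr F u v) y c →
      Adj F w c ∧ ¬ ReflTransGen (fun p q => (w, p, q) ∈ F) w' c := by
    intro c hc
    induction hc with
    | refl => exact ⟨hy, hcon⟩
    | @tail p q _ h2 ih =>
      obtain ⟨h3, h4⟩ := ih
      obtain ⟨q', hq'⟩ := h3
      have h5 : Adj F w q' := hF.adj_symm ⟨p, hF.rot2 hq'⟩
      have h6 : ¬ ReflTransGen (fun p q => (w, p, q) ∈ F) w' q' := by
        intro h
        apply h4
        exact h.trans (link_symm hF ⟨q', hq'⟩ (ReflTransGen.single hq')).2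
      have hp : p ≠ w' := by
        rintro rfl; exact h4 ReflTransGen.refl
      have hq : q' ≠ w' := by
        rintro rfl; exact h6 ReflTransGen.refl
      have h7 := hmap p q' hq' hp hq
      rw [uniq_contr hF hO _ _ _ _ h2 h7]
      exact ⟨h5, h6⟩
  obtain ⟨q, hq⟩ := hy
  have h5 : Adj F w q := hF.adj_symm ⟨y, hF.rot2 hq⟩
  have h6 : ¬ ReflTransGen (fun p q => (w, p, q) ∈ F) w' q := by
    intro h
    apply hcon
    exact h.trans (link_symm hF ⟨q, hq⟩ (ReflTransGen.single hq)).2
  have hqn : q ≠ w' := by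
    rintro rfl; exact h6 ReflTransGen.refl
  have hyv : Adj (contr F u v) v y := ⟨q, hmap y q hq hne hqn⟩
  have h8 := key s (hG.link v y s hyv hsv)
  exact h8.2 (ReflTransGen.single hs)

end MA3

open MA1 MA3 Relation in
/-- **A3**: if a contraction is a sphere then so is the original -/
theorem a3 : A3Stmt := by
  intro F u v hF hO hG
  have huv := ok_ne hF hO
  have hvu : Adj F v u := hF.adj_symm hO.adj
  obtain ⟨x, hx⟩ := hO.adj
  obtain ⟨y0, hy0⟩ := hF.adj_symm hO.adj
  obtain ⟨hx1, hx2, hx3⟩ := hF.nd hx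
  obtain ⟨hy1, hy2, hy3⟩ := hF.nd hy0
  refine
    { toPre := hF
      link := ?_
      conn := fun a b ha hb => conn_of hF hO hG a b ha hb
      euler := ?_ }
  · intro w y z hy hz
    by_cases hwu : w = u
    · subst hwu
      have hmap : ∀ p q, (w, p, q) ∈ F → p ≠ v → q ≠ v → (v, p, q) ∈ contr F w v :=
        fun p q h hp hq => nd_of_u hF h hp hq
      have hsv : Adj (contr F w v) v x :=
        (adj_contr hF hO _ _).2 ⟨hx2, v, x, ⟨w, hF.rot _ _ _ hx⟩, sub1_v _ _, sub1_ne hx3⟩
      have h1 := link_aux hF hO hG hO.adj hx hsv hmap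
      exact (link_symm hF hO.adj (h1 y hy)).2.trans (h1 z hz)
    · by_cases hwv : w = v
      · subst hwv
        have hmap : ∀ p q, (w, p, q) ∈ F → p ≠ u → q ≠ u → (w, p, q) ∈ contr F u w :=
          fun p q h hp hq => nd_of_notu hF h hwu hp hq
        have hsv : Adj (contr F u w) w y0 :=
          (adj_contr hF hO _ _).2 ⟨hy3.symm, u, y0, ⟨w, hF.rot _ _ _ hy0⟩, sub1_u _ _,
            sub1_ne hy2.symm⟩
        have h1 := link_aux hF hO hG hvu hy0 hsv hmap
        exact (link_symm hF hvu (h1 y hy)).2.trans (h1 z hz)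
      · exact link_other hF hO hG hwu hwv y z hy hz
  · have h1 := card_contr hF hO
    have h2 : (verts (contr F u v)).card + 1 = (verts F).card := by
      rw [verts_contr hF hO]
      exact Finset.card_erase_add_one (Pre.mem_left hO.adj)
    have h3 := hG.euler
    omega

end Pool.Agent.H3.RCR
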