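import Pool.Agent.H3.RCR.Stmts2

/-!
# Project RCR, module G17: a side of a 3-cycle is realised by the restriction
-/

namespace Pool.Agent.H3.RCR

namespace MG17

theorem orient_eq (P Q R : Pt) : orient P Q R = dt P Q + dt Q R + dt R P := by
  simp only [orient, dt, Prod.fst_sub, Prod.snd_sub]
  ring

theorem orient_rot (P Q R : Pt) : orient P Q R = orient Q R P := by
  simp only [orient, dt, Prod.fst_sub, Prod.snd_sub]
  ring

theorem orient_swap (P Q R : Pt) : orient P R Q = - orient P Q R := by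
  simp only [orient, dt, Prod.fst_sub, Prod.snd_sub]
  ring

/-- rotation of triples -/
def rt (t : Tri) : Tri := (t.2.1, t.2.2, t.1)

theorem rt_inj : Function.Injective rt := by
  rintro ⟨a, b, c⟩ ⟨a', b', c'⟩ h
  simp only [rt, Prod.mk.injEq] at h
  obtain ⟨rfl, rfl, rfl⟩ := h
  rfl

theorem image_rt {S : Finset Tri} (hS : RotC S) : S.image rt = S := by
  apply Finset.eq_of_subset_of_card_le
  · intro t ht
    rw [Finset.mem_image] at ht
    obtain ⟨⟨a, b, c⟩, h, rfl⟩ := ht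
    exact hS _ _ _ h
  · rw [Finset.card_image_of_injective _ rt_inj]

theorem sum_rt {S : Finset Tri} (hS : RotC S) (f : Tri → ℝ) : ∑ t ∈ S, f (rt t) = ∑ t ∈ S, f t := by
  have h := Finset.sum_image (s := S) (g := rt) (f := f) (fun x _ y _ h => rt_inj h)
  rw [image_rt hS] at h
  exact h.symm

/-- the sum of the orientations of the faces of a side -/
theorem sum_orient (h20 : A20Stmt) (h0 : A0Stmt) {F S : Finset Tri} {a b c : ℕ} (p : ℕ → Pt)
    (hF : Sph F) (hS : Side3 F a b c S) :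
    ∑ t ∈ S, orient (p t.1) (p t.2.1) (p t.2.2) = 3 * orient (p a) (p b) (p c) := by
  have hP := hF.toPre
  obtain ⟨hc, hs⟩ := (h0.1 F a b c S hP).1 hS
  have h1 := h20 ℝ F S 3 (c3 a b c) (fun x y => dt (p x) (p y)) hP hc hs (by
    intro x y
    simp only [dt]
    ring)
  have e0 : c3 a b c 0 = a := by simp [c3]
  have e1 : c3 a b c 1 = b := by
    have : (1 : ZMod 3) ≠ 0 := by decide
    simp [c3, this]
  have e2 : c3 a b c 2 = c := by
    have h2 : (2 : ZMod 3) ≠ 0 := by decide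
    have h3 : (2 : ZMod 3) ≠ 1 := by decide
    simp [c3, h2, h3]
  have h2 : ∑ i ∈ Finset.range 3, dt (p (c3 a b c (i : ZMod 3))) (p (c3 a b c ((i : ZMod 3) + 1))) =
      orient (p a) (p b) (p c) := by
    rw [Finset.sum_range_succ, Finset.sum_range_succ, Finset.sum_range_one]
    have f1 : ((0 : ℕ) : ZMod 3) = 0 := rfl
    have f2 : ((1 : ℕ) : ZMod 3) = 1 := rfl
    have f3 : ((2 : ℕ) : ZMod 3) = 2 := rfl
    have f4 : (0 : ZMod 3) + 1 = 1 := rfl
    have f5 : (1 : ZMod 3) + 1 = 2 := rfl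
    have f6 : (2 : ZMod 3) + 1 = 0 := rfl
    rw [f1, f2, f3, f4, f5, f6, e0, e1, e2, orient_eq]
  have h1' : ∑ t ∈ S, dt (p t.1) (p t.2.1) = orient (p a) (p b) (p c) := by
    rw [← h2]; exact h1
  have h3 : ∑ t ∈ S, dt (p t.2.1) (p t.2.2) = orient (p a) (p b) (p c) := by
    rw [← h1']
    exact sum_rt hS.rot (fun t => dt (p t.1) (p t.2.1))
  have h4 : ∑ t ∈ S, dt (p t.2.2) (p t.1) = orient (p a) (p b) (p c) := by
    rw [← h3]
    exact sum_rt hS.rot (fun t => dt (p t.2.1) (p t.2.2))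
  have h5 : ∑ t ∈ S, orient (p t.1) (p t.2.1) (p t.2.2) =
      ∑ t ∈ S, (dt (p t.1) (p t.2.1) + dt (p t.2.1) (p t.2.2) + dt (p t.2.2) (p t.1)) :=
    Finset.sum_congr rfl (fun t _ => orient_eq _ _ _)
  rw [h5, Finset.sum_add_distrib, Finset.sum_add_distrib, h1', h3, h4]
  ring

theorem mem_of_rots {S : Finset Tri} (hS : RotC S) {t o : Tri} (ht : t ∈ S) (h : t ∈ rots o) :
    o ∈ S := by
  obtain ⟨a, b, c⟩ := t
  obtain ⟨o1, o2, o3⟩ := o
  simp only [mem_rots, Prod.mk.injEq] at h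
  rcases h with ⟨rfl, rfl, rfl⟩ | ⟨rfl, rfl, rfl⟩ | ⟨rfl, rfl, rfl⟩
  · exact ht
  · exact hS _ _ _ (hS _ _ _ ht)
  · exact hS _ _ _ ht

theorem side_pos (h20 : A20Stmt) (h0 : A0Stmt) {F S : Finset Tri} {a b c : ℕ} {o : Tri}
    {p : ℕ → Pt} (hF : Sph F) (hR : Real F o p) (hS : Side3 F a b c S) (ho : o ∉ S) :
    0 < orient (p a) (p b) (p c) := by
  have h1 := sum_orient h20 h0 p hF hS
  have h2 : 0 < ∑ t ∈ S, orient (p t.1) (p t.2.1) (p t.2.2) := by
    apply Finset.sum_pos
    · intro t ht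
      exact hR.pos t (hS.sub ht) (fun h => ho (mem_of_rots hS.rot ht h))
    · obtain ⟨⟨d, hd⟩, _⟩ := (hS.jump a b).2 (Or.inl ⟨rfl, rfl⟩)
      exact ⟨_, hd⟩
  linarith

theorem rots_orient {p : ℕ → Pt} {t : Tri} {a b c : ℕ} (h : t ∈ rots (a, b, c)) :
    orient (p t.1) (p t.2.1) (p t.2.2) = orient (p a) (p b) (p c) := by
  rw [mem_rots] at h
  rcases h with rfl | rfl | rfl
  · rfl
  · exact (orient_rot _ _ _).symm
  · rw [orient_rot]

end MG17

open MG17 in
/-- **G17**: a side of a 3-cycle is realised by the restriction -/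
theorem g17 (h20 : A20Stmt) (h0 : A0Stmt) : G17Stmt := by
  intro F S a b c o p hF hR hS
  constructor
  · intro ho
    have h1 := side_pos h20 h0 hF hR hS ho
    refine ⟨?_, ?_, ?_⟩
    · rw [Finset.mem_union]; right; exact self_mem_rots _
    · show orient (p a) (p c) (p b) < 0
      rw [orient_swap]; linarith
    · intro t ht hto
      rw [Finset.mem_union] at ht
      rcases ht with ht | ht
      · exact hR.pos t (hS.sub ht) (fun h => ho (mem_of_rots hS.rot ht h))
      · exact absurd ht hto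
  · intro ho
    have hS' : Side3 F a c b (F \ S) := ((h0.2 F a b c hF).2 S hS).2.1
    have h1 := side_pos h20 h0 hF hR hS' (by
      rw [Finset.mem_sdiff]; exact fun h => h.2 ho)
    refine ⟨?_, hR.neg, ?_⟩
    · rw [Finset.mem_union]; left; exact ho
    · intro t ht hto
      rw [Finset.mem_union] at ht
      rcases ht with ht | ht
      · exact hR.pos t (hS.sub ht) hto
      · rw [rots_orient ht]; exact h1

end Pool.Agent.H3.RCR
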