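import Pool.Agent.H67.RCR.A1

/-!
# Project RCR, module G7: un-contraction
-/

namespace Pool.Agent.H3.RCR

namespace MG7

open MA1

theorem orient_rot (P Q R : Pt) : orient P Q R = orient Q R P := by
  simp only [orient, dt, Prod.fst_sub, Prod.snd_sub]
  ring

/-- a direction between two different directions -/
theorem exists_dir (X Y : Pt) (hX : X ≠ 0) (hY : Y ≠ 0) (h : ∀ r : ℝ, 0 < r → Y ≠ r • X) :
    ∃ w : Pt, 0 < dt X w ∧ 0 < dt w Y := by
  by_cases hd : dt X Y = 0
  · -- `Y` is a negative multiple of `X`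
    have hn : 0 < X.1 ^ 2 + X.2 ^ 2 := by
      by_contra hcon
      apply hX
      have h1 : X.1 ^ 2 + X.2 ^ 2 = 0 := le_antisymm (not_lt.1 hcon) (by positivity)
      have h2 : X.1 = 0 := by nlinarith [sq_nonneg X.1, sq_nonneg X.2]
      have h3 : X.2 = 0 := by nlinarith [sq_nonneg X.1, sq_nonneg X.2]
      exact Prod.ext h2 h3
    set r : ℝ := (X.1 * Y.1 + X.2 * Y.2) / (X.1 ^ 2 + X.2 ^ 2) with hr
    have hYr : Y = r • X := by
      simp only [dt] at hd
      apply Prod.ext
      · simp only [Prod.smul_fst, smul_eq_mul, hr]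
        field_simp
        linear_combination (-X.2) * hd
      · simp only [Prod.smul_snd, smul_eq_mul, hr]
        field_simp
        linear_combination X.1 * hd
    have hr0 : r ≠ 0 := by
      intro e
      apply hY
      rw [hYr, e, zero_smul]
    have hrn : r < 0 := by
      rcases lt_trichotomy r 0 with h1 | h1 | h1
      · exact h1
      · exact absurd h1 hr0
      · exact absurd hYr (h r h1)
    refine ⟨(-X.2, X.1), ?_, ?_⟩
    · simp only [dt]
      nlinarith
    · rw [hYr]
      simp only [dt, Prod.smul_fst, Prod.smul_snd, smul_eq_mul]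
      nlinarith
  · rcases lt_or_gt_of_ne hd with hd | hd
    · refine ⟨-(X + Y), ?_, ?_⟩ <;>
      · simp only [dt, Prod.fst_neg, Prod.snd_neg, Prod.fst_add, Prod.snd_add] at hd ⊢
        nlinarith
    · refine ⟨X + Y, ?_, ?_⟩ <;>
      · simp only [dt, Prod.fst_add, Prod.snd_add] at hd ⊢
        nlinarith

theorem edge_ne {F : Finset Tri} {o : Tri} {p : ℕ → Pt} (h : Real F o p) {a b : ℕ}
    (hab : Adj F a b) : p b - p a ≠ 0 := by
  obtain ⟨c, hc⟩ := hab
  intro e
  have h0 : orient (p a) (p b) (p c) = 0 := by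
    simp only [orient, e, dt, Prod.fst_zero, Prod.snd_zero, zero_mul, sub_zero]
  by_cases ho : (a, b, c) ∈ rots o
  · have h1 := h.neg
    obtain ⟨o1, o2, o3⟩ := o
    rw [mem_rots] at ho
    simp only [Prod.mk.injEq] at ho h1
    rcases ho with ⟨rfl, rfl, rfl⟩ | ⟨rfl, rfl, rfl⟩ | ⟨rfl, rfl, rfl⟩
    · rw [h0] at h1; exact lt_irrefl _ h1
    · rw [orient_rot, h0] at h1; exact lt_irrefl _ h1
    · rw [orient_rot, orient_rot, h0] at h1; exact lt_irrefl _ h1
  · have h1 := h.pos _ hc ho
    simp only at h1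
    rw [h0] at h1
    exact lt_irrefl _ h1

theorem cont (P w A B : Pt) : Continuous (fun e : ℝ => orient (P + e • w) A B) := by
  simp only [orient, dt, Prod.fst_sub, Prod.snd_sub, Prod.fst_add, Prod.snd_add, Prod.smul_fst,
    Prod.smul_snd, smul_eq_mul]
  fun_prop

end MG7

open MA1 MG7 in
/-- **G7**: un-contraction -/
theorem g7 (h3 : G3Stmt) : G7Stmt := by
  intro F u v o p hF hO hoF huo hR
  have hP := hF.toPre
  have huv := ok_ne hP hO
  obtain ⟨x, hx⟩ := hO.adj
  obtain ⟨y, hy⟩ := hP.adj_symm hO.adj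
  obtain ⟨hx1, hx2, hx3⟩ := hP.nd hx
  obtain ⟨hy1, hy2, hy3⟩ := hP.nd hy
  have hxy : x ≠ y := by
    rintro rfl
    exact hO.dist x ⟨hx, hy⟩
  have hG := pre_contr hP hO
  have ax : Adj (contr F u v) v x :=
    (adj_contr hP hO _ _).2 ⟨hx2, v, x, ⟨u, hP.rot _ _ _ hx⟩, sub1_v _ _, sub1_ne hx3⟩
  have ay : Adj (contr F u v) v y :=
    (adj_contr hP hO _ _).2 ⟨hy3.symm, u, y, ⟨v, hP.rot _ _ _ hy⟩, sub1_u _ _, sub1_ne hy2.symm⟩
  obtain ⟨w, hw1, hw2⟩ := exists_dir (p x - p v) (p y - p v) (edge_ne hR ax) (edge_ne hR ay)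
    (fun r hr => h3 _ _ _ hG hR v x y ax ay hxy r hr)
  -- small steps keep all other faces positive
  have hev : ∀ t ∈ contr F u v, ∀ᶠ e : ℝ in nhdsWithin 0 (Set.Ioi 0),
      t.1 = v → t ∉ rots o → 0 < orient (p v + e • w) (p t.2.1) (p t.2.2) := by
    intro t ht
    by_cases h1 : t.1 = v ∧ t ∉ rots o
    · have h2 := hR.pos t ht h1.2
      rw [h1.1] at h2
      have h4 : Filter.Tendsto (fun e : ℝ => orient (p v + e • w) (p t.2.1) (p t.2.2)) (nhds 0)
          (nhds (orient (p v) (p t.2.1) (p t.2.2))) := by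
        have := (cont (p v) w (p t.2.1) (p t.2.2)).tendsto 0
        simpa using this
      have h5 := h4.eventually (lt_mem_nhds h2)
      filter_upwards [nhdsWithin_le_nhds h5] with e he _ _ using he
    · filter_upwards with e h2 h4
      exact absurd ⟨h2, h4⟩ h1
  have hall : ∀ᶠ e : ℝ in nhdsWithin 0 (Set.Ioi 0), (∀ t ∈ contr F u v,
      t.1 = v → t ∉ rots o → 0 < orient (p v + e • w) (p t.2.1) (p t.2.2)) ∧ 0 < e := by
    refine Filter.Eventually.and ((Filter.eventually_all_finset _).2 hev) ?_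
    exact self_mem_nhdsWithin
  obtain ⟨e, he, he0⟩ := hall.exists
  refine ⟨p v + e • w, ?_⟩
  set p' : ℕ → Pt := Function.update p u (p v + e • w) with hp'
  have pu : p' u = p v + e • w := by rw [hp', Function.update_self]
  have pn : ∀ z, z ≠ u → p' z = p z := fun z hz => by rw [hp', Function.update_of_ne hz]
  -- the faces at `u`
  have main : ∀ a b, (u, a, b) ∈ F → 0 < orient (p' u) (p' a) (p' b) := by
    intro a b h
    obtain ⟨n1, n2, n3⟩ := hP.nd h
    rw [pu, pn a n1.symm, pn b n3]
    by_cases hav : a = v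
    · subst hav
      have := hP.uniq _ _ _ _ h hx
      subst this
      have e1 : orient (p a + e • w) (p a) (p b) = e * dt (p b - p a) w := by
        simp only [orient, dt, Prod.fst_sub, Prod.snd_sub, Prod.fst_add, Prod.snd_add,
          Prod.smul_fst, Prod.smul_snd, smul_eq_mul]
        ring
      rw [e1]
      exact mul_pos he0 hw1
    · by_cases hbv : b = v
      · subst hbv
        have := hP.uniq _ _ _ _ (hP.rot2 h) hy
        subst this
        have e1 : orient (p b + e • w) (p a) (p b) = e * dt w (p a - p b) := by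
          simp only [orient, dt, Prod.fst_sub, Prod.snd_sub, Prod.fst_add, Prod.snd_add,
            Prod.smul_fst, Prod.smul_snd, smul_eq_mul]
          ring
        rw [e1]
        exact mul_pos he0 hw2
      · have h4 := nd_of_u hP h hav hbv
        refine he _ h4 rfl ?_
        intro h5
        have h6 : (v, a, b) ∈ F := by
          obtain ⟨o1, o2, o3⟩ := o
          rw [mem_rots] at h5
          rcases h5 with h5 | h5 | h5
          · rw [h5]; exact hoF
          · rw [h5]; exact hP.rot _ _ _ hoF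
          · rw [h5]; exact hP.rot2 hoF
        exact huv (hP.uniq' h h6)
  refine ⟨hoF, ?_, ?_⟩
  · simp only [isV, not_or] at huo
    rw [pn _ (Ne.symm huo.1), pn _ (Ne.symm huo.2.1), pn _ (Ne.symm huo.2.2)]
    exact hR.neg
  · rintro ⟨a, b, c⟩ ht hto
    simp only
    by_cases h1 : a = u
    · subst h1; exact main _ _ ht
    by_cases h2 : b = u
    · subst h2
      rw [orient_rot]
      exact main _ _ (hP.rot _ _ _ ht)
    by_cases h4 : c = u
    · subst h4
      rw [orient_rot, orient_rot]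
      exact main _ _ (hP.rot2 ht)
    rw [pn _ h1, pn _ h2, pn _ h4]
    exact hR.pos _ (nd_of_notu hP ht h1 h2 h4) hto

end Pool.Agent.H3.RCR
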